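import Pool.Agent.Helper86.FS.StartGoals

/-!
# CH1: second moment, one set moved into another
-/

namespace Pool.Agent.Helper17.FS

open Equiv Pool.Agent.Helper3.AK Pool.Agent.Helper86.FS Finset

variable {n : ℕ}

private lemma p1 (κ : Perm (Fin n) → ℝ) (hκ : Qu κ) (P Q : Fin n) :
    |(∑ w, κ w * (if w P = Q then (1 : ℝ) else 0)) - 1 / (n : ℝ)| ≤ 1 / (n : ℝ) ^ 10 := by
  classical
  have h := hκ.qu 1 (by norm_num) ⟨fun _ => P, Function.injective_of_subsingleton _⟩
    ⟨fun _ => Q, Function.injective_of_subsingleton _⟩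
  have e1 : pT κ (⟨fun _ => P, Function.injective_of_subsingleton _⟩ : Fin 1 ↪ Fin n)
      ⟨fun _ => Q, Function.injective_of_subsingleton _⟩ =
      ∑ w, κ w * (if w P = Q then (1 : ℝ) else 0) := by
    unfold pT
    rw [Finset.sum_filter]
    apply Finset.sum_congr rfl
    intro w _
    simp only [Function.Embedding.coeFn_mk, forall_const]
    by_cases hw : w P = Q <;> simp [hw]
  rw [e1, Nat.descFactorial_one] at h
  exact h

private lemma p2 (κ : Perm (Fin n) → ℝ) (hκ : Qu κ) (P P' Q Q' : Fin n) (hP : P ≠ P')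
    (hQ : Q ≠ Q') :
    |(∑ w, κ w * (if w P = Q ∧ w P' = Q' then (1 : ℝ) else 0)) -
      1 / ((n.descFactorial 2 : ℕ) : ℝ)| ≤ 1 / (n : ℝ) ^ 10 := by
  classical
  have inj : ∀ {x y : Fin n}, x ≠ y → Function.Injective ![x, y] := by
    intro x y hxy i j hij
    fin_cases i <;> fin_cases j <;> simp_all [hxy.symm]
  have h := hκ.qu 2 (by norm_num) ⟨![P, P'], inj hP⟩ ⟨![Q, Q'], inj hQ⟩
  have e1 : pT κ (⟨![P, P'], inj hP⟩ : Fin 2 ↪ Fin n) ⟨![Q, Q'], inj hQ⟩ =
      ∑ w, κ w * (if w P = Q ∧ w P' = Q' then (1 : ℝ) else 0) := by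
    unfold pT
    rw [Finset.sum_filter]
    apply Finset.sum_congr rfl
    intro w _
    simp only [Function.Embedding.coeFn_mk, Fin.forall_fin_two, Matrix.cons_val_zero,
      Matrix.cons_val_one]
    by_cases hw : w P = Q ∧ w P' = Q' <;> simp [hw]
  rw [e1] at h
  exact h

theorem ch1 : CH1Stmt := by
  intro n κ hn hκ A B
  classical
  have hn4 : (4 : ℝ) ≤ n := by exact_mod_cast hn
  have hn0 : (0 : ℝ) < n := by linarith
  obtain ⟨δ, hδ⟩ : ∃ δ : ℝ, δ = 1 / (n : ℝ) ^ 10 := ⟨_, rfl⟩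
  have hδ0 : 0 ≤ δ := by rw [hδ]; positivity
  -- indicator
  let I : Perm (Fin n) → Fin n × Fin n → ℝ := fun w x => if w x.1 = x.2 then 1 else 0
  let J : Perm (Fin n) → Fin n × Fin n → Fin n × Fin n → ℝ :=
    fun w x y => if w x.1 = x.2 ∧ w y.1 = y.2 then 1 else 0
  have hX : ∀ w : Perm (Fin n), ((A.filter fun P => w P ∈ B).card : ℝ) =
      ∑ x ∈ A ×ˢ B, I w x := by
    intro w
    rw [Finset.card_filter, Finset.sum_product]
    push_cast
    apply Finset.sum_congr rfl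
    intro P _
    simp only [I, Finset.sum_ite_eq]
  obtain ⟨N, hN⟩ : ∃ N : ℝ, N = (A.card : ℝ) * B.card := ⟨_, rfl⟩
  have hNcard : ((A ×ˢ B).card : ℝ) = N := by rw [hN, Finset.card_product]; push_cast; ring
  have hA : (A.card : ℝ) ≤ n := by
    have := Finset.card_le_univ A
    rw [Fintype.card_fin] at this
    exact_mod_cast this
  have hB : (B.card : ℝ) ≤ n := by
    have := Finset.card_le_univ B
    rw [Fintype.card_fin] at this
    exact_mod_cast this
  have hN0 : 0 ≤ N := by rw [hN]; positivity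
  have hNn : N ≤ (n : ℝ) ^ 2 := by
    rw [hN, sq]
    exact mul_le_mul hA hB (by positivity) hn0.le
  have hp1 : ∀ x : Fin n × Fin n, |(∑ w, κ w * I w x) - 1 / (n : ℝ)| ≤ δ := by
    intro x; rw [hδ]; exact p1 κ hκ x.1 x.2
  -- first moment
  have hE1 : N / n - N * δ ≤ ∑ w, κ w * ∑ x ∈ A ×ˢ B, I w x := by
    have e1 : ∑ w, κ w * ∑ x ∈ A ×ˢ B, I w x = ∑ x ∈ A ×ˢ B, ∑ w, κ w * I w x := by
      rw [Finset.sum_comm]
      apply Finset.sum_congr rfl
      intro w _
      rw [Finset.mul_sum]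
    rw [e1]
    calc N / n - N * δ = ∑ x ∈ A ×ˢ B, (1 / (n : ℝ) - δ) := by
          rw [Finset.sum_const, nsmul_eq_mul, hNcard]; ring
      _ ≤ ∑ x ∈ A ×ˢ B, ∑ w, κ w * I w x := by
          apply Finset.sum_le_sum
          intro x _
          have := (abs_le.mp (hp1 x)).1
          linarith
  -- second moment
  have hdf : ((n.descFactorial 2 : ℕ) : ℝ) = (n : ℝ) * (n - 1) := by
    have h1 : 1 ≤ n := by omega
    rw [Nat.descFactorial_succ, Nat.descFactorial_one]
    push_cast [Nat.cast_sub h1]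
    ring
  have hp2 : ∀ x y : Fin n × Fin n, x.1 ≠ y.1 → x.2 ≠ y.2 →
      (∑ w, κ w * J w x y) ≤ 1 / ((n : ℝ) * (n - 1)) + δ := by
    intro x y h1 h2
    have := (abs_le.mp (p2 κ hκ x.1 y.1 x.2 y.2 h1 h2)).2
    rw [hdf, ← hδ] at this
    have e : (∑ w, κ w * J w x y) =
        ∑ w, κ w * (if w x.1 = x.2 ∧ w y.1 = y.2 then (1 : ℝ) else 0) := rfl
    rw [e]
    linarith
  have hpt : ∀ (w : Perm (Fin n)) (x y : Fin n × Fin n), I w x * I w y ≤
      (if x = y then I w x else 0) + (if x.1 ≠ y.1 ∧ x.2 ≠ y.2 then J w x y else 0) := by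
    intro w x y
    by_cases hx : w x.1 = x.2
    · by_cases hy : w y.1 = y.2
      · by_cases h1 : x.1 = y.1
        · have : x = y := by
            apply Prod.ext h1
            rw [← hx, ← hy, h1]
          subst this
          simp [I, hx]
        · have h2 : x.2 ≠ y.2 := by
            intro h3
            apply h1
            apply w.injective
            rw [hx, hy, h3]
          have h4 : x ≠ y := fun h5 => h1 (by rw [h5])
          simp [I, J, hx, hy, h1, h2, h4]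
      · have : I w y = 0 := by simp [I, hy]
        rw [this, mul_zero]
        have a1 : 0 ≤ (if x = y then I w x else 0) := by
          simp only [I]; split_ifs <;> norm_num
        have a2 : 0 ≤ (if x.1 ≠ y.1 ∧ x.2 ≠ y.2 then J w x y else 0) := by
          simp only [J]; split_ifs <;> norm_num
        linarith
    · have : I w x = 0 := by simp [I, hx]
      rw [this, zero_mul]
      have a2 : 0 ≤ (if x.1 ≠ y.1 ∧ x.2 ≠ y.2 then J w x y else 0) := by
        simp only [J]; split_ifs <;> norm_num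
      simp only [ite_self, zero_add]
      exact a2
  have hE2 : ∑ w, κ w * (∑ x ∈ A ×ˢ B, I w x) ^ 2 ≤
      N * (1 / n + δ) + N ^ 2 * (1 / ((n : ℝ) * (n - 1)) + δ) := by
    have s1 : ∑ w, κ w * (∑ x ∈ A ×ˢ B, I w x) ^ 2 ≤
        ∑ w, κ w * (∑ x ∈ A ×ˢ B, ∑ y ∈ A ×ˢ B, ((if x = y then I w x else 0) +
          (if x.1 ≠ y.1 ∧ x.2 ≠ y.2 then J w x y else 0))) := by
      apply Finset.sum_le_sum
      intro w _
      apply mul_le_mul_of_nonneg_left _ (hκ.nonneg w)
      rw [sq, Finset.sum_mul_sum]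
      apply Finset.sum_le_sum
      intro x _
      apply Finset.sum_le_sum
      intro y _
      exact hpt w x y
    have s2 : ∑ w, κ w * (∑ x ∈ A ×ˢ B, ∑ y ∈ A ×ˢ B, ((if x = y then I w x else 0) +
          (if x.1 ≠ y.1 ∧ x.2 ≠ y.2 then J w x y else 0))) =
        ∑ x ∈ A ×ˢ B, ((∑ w, κ w * I w x) + ∑ y ∈ A ×ˢ B,
          (if x.1 ≠ y.1 ∧ x.2 ≠ y.2 then (∑ w, κ w * J w x y) else 0)) := by
      have t1 : ∀ w : Perm (Fin n), κ w * (∑ x ∈ A ×ˢ B, ∑ y ∈ A ×ˢ B,
          ((if x = y then I w x else 0) +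
          (if x.1 ≠ y.1 ∧ x.2 ≠ y.2 then J w x y else 0))) =
          ∑ x ∈ A ×ˢ B, (κ w * I w x + ∑ y ∈ A ×ˢ B,
            (if x.1 ≠ y.1 ∧ x.2 ≠ y.2 then κ w * J w x y else 0)) := by
        intro w
        rw [Finset.mul_sum]
        apply Finset.sum_congr rfl
        intro x hx
        rw [Finset.sum_add_distrib, Finset.sum_ite_eq, if_pos hx, mul_add, Finset.mul_sum]
        congr 1
        apply Finset.sum_congr rfl
        intro y _
        split_ifs <;> simp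
      rw [Finset.sum_congr rfl (fun w _ => t1 w), Finset.sum_comm]
      apply Finset.sum_congr rfl
      intro x _
      rw [Finset.sum_add_distrib]
      congr 1
      rw [Finset.sum_comm]
      apply Finset.sum_congr rfl
      intro y _
      split_ifs
      · rfl
      · simp
    have s3 : ∑ x ∈ A ×ˢ B, ((∑ w, κ w * I w x) + ∑ y ∈ A ×ˢ B,
          (if x.1 ≠ y.1 ∧ x.2 ≠ y.2 then (∑ w, κ w * J w x y) else 0)) ≤
        ∑ x ∈ A ×ˢ B, ((1 / (n : ℝ) + δ) + ∑ y ∈ A ×ˢ B, (1 / ((n : ℝ) * (n - 1)) + δ)) := by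
      apply Finset.sum_le_sum
      intro x _
      apply add_le_add
      · have := (abs_le.mp (hp1 x)).2
        linarith
      · apply Finset.sum_le_sum
        intro y _
        split_ifs with h
        · exact hp2 x y h.1 h.2
        · have : 0 ≤ 1 / ((n : ℝ) * (n - 1)) := by
            apply div_nonneg zero_le_one
            apply mul_nonneg hn0.le; linarith
          linarith
    have s4 : ∑ x ∈ A ×ˢ B, ((1 / (n : ℝ) + δ) + ∑ y ∈ A ×ˢ B, (1 / ((n : ℝ) * (n - 1)) + δ)) =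
        N * (1 / n + δ) + N ^ 2 * (1 / ((n : ℝ) * (n - 1)) + δ) := by
      rw [Finset.sum_const, Finset.sum_const, nsmul_eq_mul, nsmul_eq_mul, hNcard]
      ring
    linarith
  -- combine
  have hexp : ∑ w, κ w * (((A.filter fun P => w P ∈ B).card : ℝ) -
      (A.card : ℝ) * B.card / n) ^ 2 =
      ∑ w, κ w * (∑ x ∈ A ×ˢ B, I w x) ^ 2 - 2 * (N / n) * (∑ w, κ w * ∑ x ∈ A ×ˢ B, I w x) +
        (N / n) ^ 2 := by
    have t1 : ∀ w : Perm (Fin n), κ w * (((A.filter fun P => w P ∈ B).card : ℝ) -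
      (A.card : ℝ) * B.card / n) ^ 2 = κ w * (∑ x ∈ A ×ˢ B, I w x) ^ 2 -
        2 * (N / n) * (κ w * ∑ x ∈ A ×ˢ B, I w x) + (N / n) ^ 2 * κ w := by
      intro w
      rw [hX w, ← hN]
      ring
    rw [Finset.sum_congr rfl (fun w _ => t1 w), Finset.sum_add_distrib, Finset.sum_sub_distrib,
      ← Finset.mul_sum, ← Finset.mul_sum, hκ.sum, mul_one]
  rw [hexp, ← hN]
  obtain ⟨q, hq⟩ : ∃ q : ℝ, q = N / n := ⟨_, rfl⟩
  have hqN : N = q * n := by rw [hq]; field_simp
  have hq0 : 0 ≤ q := by rw [hq]; positivity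
  have hqn : q ≤ n := by
    rw [hq, div_le_iff₀ hn0]; nlinarith
  rw [← hq] at hE1 ⊢
  have hn1 : (0 : ℝ) < (n : ℝ) - 1 := by linarith
  -- the main term
  have m1 : N ^ 2 * (1 / ((n : ℝ) * (n - 1))) - q ^ 2 ≤ 2 * q := by
    have e : N ^ 2 * (1 / ((n : ℝ) * (n - 1))) - q ^ 2 = q ^ 2 / (n - 1) := by
      rw [hqN]; field_simp; ring
    rw [e, div_le_iff₀ hn1]
    nlinarith
  -- the error terms
  have m2 : δ * (N + N ^ 2 + 2 * q * N) ≤ 1 := by
    have b1 : N + N ^ 2 + 2 * q * N ≤ (n : ℝ) ^ 10 := by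
      have c1 : N ^ 2 ≤ (n : ℝ) ^ 4 := by
        calc N ^ 2 ≤ ((n : ℝ) ^ 2) ^ 2 := by gcongr
          _ = (n : ℝ) ^ 4 := by ring
      have c2 : q * N ≤ (n : ℝ) ^ 3 := by
        calc q * N ≤ n * (n : ℝ) ^ 2 := by gcongr
          _ = (n : ℝ) ^ 3 := by ring
      have c3 : (n : ℝ) ^ 2 ≤ (n : ℝ) ^ 4 := by
        apply pow_le_pow_right₀ (by linarith) (by norm_num)
      have c4 : (n : ℝ) ^ 3 ≤ (n : ℝ) ^ 4 := by
        apply pow_le_pow_right₀ (by linarith) (by norm_num)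
      have c5 : 4 * (n : ℝ) ^ 4 ≤ (n : ℝ) ^ 5 := by
        have : 0 ≤ (n : ℝ) ^ 4 := by positivity
        calc 4 * (n : ℝ) ^ 4 ≤ n * (n : ℝ) ^ 4 := by gcongr
          _ = (n : ℝ) ^ 5 := by ring
      have c6 : (n : ℝ) ^ 5 ≤ (n : ℝ) ^ 10 := by
        apply pow_le_pow_right₀ (by linarith) (by norm_num)
      linarith
    rw [hδ, one_div, inv_mul_le_iff₀ (by positivity), mul_one]
    exact b1
  have m3 : -(2 * q * (∑ w, κ w * ∑ x ∈ A ×ˢ B, I w x)) ≤ -(2 * q * (q - N * δ)) := by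
    have : 2 * q * (q - N * δ) ≤ 2 * q * (∑ w, κ w * ∑ x ∈ A ×ˢ B, I w x) := by gcongr
    linarith
  have m4 : N * (1 / (n : ℝ) + δ) = q + N * δ := by rw [hq]; ring
  nlinarith

end Pool.Agent.Helper17.FS
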